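import Pool.Agent.Q266.RP.Stm2

/-!
# Project RP (helper266), job CLREG: class less than `p` implies regular
-/

set_option autoImplicit false

namespace Pool.Agent.Q178.RP

open Pool.Agent.Q266.RP
open scoped commutatorElement

theorem claim {G : Type} [Group G] {p : ℕ} [hp : Fact p.Prime] (h1 : S_FILC) (h2 : S_LEI)
    (h3 : S_PSP) (hG : Fil G p = ⊥) : ∀ d k : ℕ, k + d = p → 2 ≤ k → ∀ g : ℕ → G,
    (∀ r, PS r 0 g) → (∀ n < k, g n = 1) → g p ∈ Mho p G := by
  intro d
  induction d with
  | zero =>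
    intro k hk _ g hg hg1
    rw [add_zero] at hk
    subst hk
    have h4 := h3.2 G k 0 g (hg k) hg1
    rw [zero_add, hG, Subgroup.mem_bot] at h4
    rw [h4]
    exact Subgroup.one_mem _
  | succ d ih =>
    intro k hk hk2 g hg hg1
    have hc : g k ∈ Fil G k := by
      have h4 := h3.2 G k 0 g (hg k) hg1
      rwa [zero_add] at h4
    have hanti : ∀ i j, i ≤ j → Fil G j ≤ Fil G i := by
      intro i j hij
      induction j, hij using Nat.le_induction with
      | base => exact le_rfl
      | succ j _ hj => exact ((h1 G).2.2 j).trans hj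
    have hcc : g k ∈ commutator G := by
      have h5 := hanti 2 k hk2 hc
      have h6 : Fil G 2 = commutator G := Subgroup.top_lowerCentralSeries_one
      rwa [h6] at h5
    have hq : ∀ r, PS r 0 (fun n => g n * (g k ^ (n.choose k))⁻¹) := by
      intro r
      refine (h2 G).1 r 0 g _ (hg r) ((h2 G).2 r 0 _ ?_)
      exact h3.1 G r 0 k (g k) (by rwa [zero_add])
    have h7 := ih (k + 1) (by omega) (by omega) (fun n => g n * (g k ^ (n.choose k))⁻¹) hq (by
      intro n hn
      show g n * (g k ^ (n.choose k))⁻¹ = 1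
      rcases Nat.lt_or_ge n k with h | h
      · rw [hg1 n h, Nat.choose_eq_zero_of_lt h, pow_zero, inv_one, mul_one]
      · obtain rfl : n = k := by omega
        rw [Nat.choose_self, pow_one, mul_inv_cancel])
    have h8 : g k ^ (p.choose k) ∈ Mho p G := by
      obtain ⟨m, hm⟩ := hp.out.dvd_choose_self (by omega : k ≠ 0) (by omega : k < p)
      rw [hm, mul_comm, pow_mul]
      exact Subgroup.subset_closure ⟨g k ^ m, Subgroup.pow_mem _ hcc m, rfl⟩
    have h9 : g p = (g p * (g k ^ (p.choose k))⁻¹) * g k ^ (p.choose k) := by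
      rw [inv_mul_cancel_right]
    rw [h9]
    exact Subgroup.mul_mem _ h7 h8

theorem lcs_mono {G : Type} [Group G] (H : Subgroup G) (n : ℕ) :
    H.lowerCentralSeries n ≤ (⊤ : Subgroup G).lowerCentralSeries n := by
  induction n with
  | zero => exact le_top
  | succ n ih =>
    rw [Subgroup.lowerCentralSeries_succ, Subgroup.lowerCentralSeries_succ]
    exact Subgroup.commutator_mono ih le_top

/-- job CLREG -/
theorem clreg : S_FILC → S_LEI → S_PSP → S_CLREG := by
  intro h1 h2 h3 p hp G _ hG a b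
  obtain ⟨H, hH⟩ : ∃ H : Subgroup G, H = Subgroup.closure ({a, b} : Set G) := ⟨_, rfl⟩
  have ha : a ∈ H := by
    rw [hH]; exact Subgroup.subset_closure (by simp)
  have hb : b ∈ H := by
    rw [hH]; exact Subgroup.subset_closure (by simp)
  rw [← hH]
  have hFil : Fil H p = ⊥ := by
    have h4 : ((⊤ : Subgroup H).lowerCentralSeries (p - 1)).map H.subtype = ⊥ := by
      rw [Subgroup.top_subtype_lowerCentralSeries, eq_bot_iff, ← hG]
      exact lcs_mono H _
    exact (Subgroup.map_eq_bot_iff_of_injective _ H.subtype_injective).1 h4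
  let a' : H := ⟨a, ha⟩
  let b' : H := ⟨b, hb⟩
  have hpow : ∀ (c : H) (r : ℕ), PS r 0 (fun n => c ^ n) := by
    intro c r
    have h5 := h3.1 H r 0 1 c (Subgroup.mem_top c)
    simpa using h5
  have hPS : ∀ r, PS r 0 (fun n => ((a' * b') ^ n)⁻¹ * a' ^ n * b' ^ n) := by
    intro r
    exact (h2 H).1 r 0 _ _ ((h2 H).1 r 0 _ _ ((h2 H).2 r 0 _ (hpow (a' * b') r)) (hpow a' r))
      (hpow b' r)
  have hp2 : 2 ≤ p := hp.out.two_le
  have key := claim h1 h2 h3 hFil (p - 2) 2 (by omega) le_rfl
    (fun n => ((a' * b') ^ n)⁻¹ * a' ^ n * b' ^ n) hPS (by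
      intro n hn
      show ((a' * b') ^ n)⁻¹ * a' ^ n * b' ^ n = 1
      interval_cases n
      · simp
      · simp [mul_assoc])
  have hmap : (Mho p H).map H.subtype ≤
      Subgroup.closure {u : G | ∃ c ∈ ⁅H, H⁆, u = c ^ p} := by
    unfold Mho
    rw [MonoidHom.map_closure]
    apply Subgroup.closure_mono
    rintro _ ⟨u, ⟨c, hc, rfl⟩, rfl⟩
    refine ⟨H.subtype c, ?_, map_pow _ _ _⟩
    have h6 : (commutator H).map H.subtype = ⁅H, H⁆ := by
      rw [← Subgroup.top_lowerCentralSeries_one, Subgroup.top_subtype_lowerCentralSeries]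
      rfl
    rw [← h6]
    exact Subgroup.mem_map_of_mem _ hc
  refine ⟨((a * b) ^ p)⁻¹ * a ^ p * b ^ p, hmap ⟨_, key, rfl⟩, ?_⟩
  group

end Pool.Agent.Q178.RP
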