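import Pool.Agent.Q266.RP.Stm

/-!
# Project RP (helper266), job PROJ: eigenprojections of an operator of order `p`
-/

set_option autoImplicit false

namespace Pool.Agent.Q178.RP

open Module Pool.Agent.Q266.RP Finset

theorem geo {p : ℕ} {d : ℂ} (h1 : d ^ p = 1) (h2 : d ≠ 1) : ∑ i ∈ range p, d ^ i = 0 := by
  have h3 := geom_sum_mul d p
  rw [h1, sub_self] at h3
  rcases mul_eq_zero.1 h3 with h | h
  · exact h
  · exact absurd (sub_eq_zero.1 h) h2

/-- `S_PROJ` with `k : Fin p` -/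
def S_PROJ_fix : Prop :=
  ∀ (p : ℕ) [Fact p.Prime] (V : Type) [AddCommGroup V] [Module ℂ V] (T : End ℂ V) (ω : ℂ),
    IsPrimitiveRoot ω p → T ^ p = 1 →
    ∃ π : Fin p → End ℂ V, (∑ j, π j = 1) ∧ (∀ j, ∀ v, T (π j v) = ω ^ (j : ℕ) • π j v) ∧
      (∀ j k : Fin p, ∀ v, T v = ω ^ (k : ℕ) • v → π j v = if j = k then v else 0) ∧
      (∀ j, ∀ A : End ℂ V, A * T = T * A → A * π j = π j * A)

/-- job PROJ -/
theorem proj : S_PROJ_fix := by
  intro p hp V _ _ T ω hω hT
  have hp0 : p ≠ 0 := hp.out.ne_zero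
  have hpC : (p : ℂ) ≠ 0 := by exact_mod_cast hp0
  have hω0 : ω ≠ 0 := hω.ne_zero hp0
  have hωp : ω ^ p = 1 := hω.pow_eq_one
  let S : Fin p → End ℂ V := fun j => (ω⁻¹ ^ (j : ℕ)) • T
  have hS : ∀ j, S j = (ω⁻¹ ^ (j : ℕ)) • T := fun j => rfl
  have hSp : ∀ j, S j ^ p = 1 := by
    intro j
    rw [hS, smul_pow, hT, ← pow_mul, mul_comm, pow_mul, inv_pow, hωp, inv_one, one_pow, one_smul]
  let π : Fin p → End ℂ V := fun j => (p : ℂ)⁻¹ • ∑ i ∈ range p, S j ^ i
  have hπ : ∀ j, π j = (p : ℂ)⁻¹ • ∑ i ∈ range p, S j ^ i := fun j => rfl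
  refine ⟨π, ?_, ?_, ?_, ?_⟩
  · have h1 : ∑ j, π j = (p : ℂ)⁻¹ • ∑ i ∈ range p, ∑ j : Fin p, S j ^ i := by
      simp only [hπ]
      rw [← smul_sum, sum_comm]
    have h2 : ∀ i ∈ range p, ∑ j : Fin p, S j ^ i = if i = 0 then (p : ℂ) • (1 : End ℂ V) else 0 := by
      intro i hi
      rw [mem_range] at hi
      have h3 : ∀ j : Fin p, S j ^ i = (ω⁻¹ ^ i) ^ (j : ℕ) • T ^ i := by
        intro j
        rw [hS, smul_pow, ← pow_mul, ← pow_mul, mul_comm]
      rw [Finset.sum_congr rfl fun j _ => h3 j, ← sum_smul,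
        Fin.sum_univ_eq_sum_range (fun j => (ω⁻¹ ^ i) ^ j) p]
      split_ifs with h0
      · subst h0
        simp
      · rw [geo, zero_smul]
        · rw [← pow_mul, mul_comm, pow_mul, inv_pow, hωp, inv_one, one_pow]
        · intro h
          rw [inv_pow, inv_eq_one] at h
          exact hω.pow_ne_one_of_pos_of_lt h0 hi h
    rw [h1, Finset.sum_congr rfl h2, Finset.sum_ite_eq' (range p) 0]
    rw [if_pos (mem_range.2 hp.out.pos), smul_smul, inv_mul_cancel₀ hpC, one_smul]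
  · intro j v
    have h1 : S j * π j = π j := by
      rw [hπ, mul_smul_comm, mul_sum]
      congr 1
      have h2 : ∑ i ∈ range p, S j * S j ^ i = ∑ i ∈ range p, S j ^ (i + 1) :=
        Finset.sum_congr rfl fun i _ => (pow_succ' (S j) i).symm
      rw [h2]
      have h3 := Finset.sum_range_succ' (fun i => S j ^ i) p
      have h4 := Finset.sum_range_succ (fun i => S j ^ i) p
      rw [h3, hSp, pow_zero] at h4
      exact add_right_cancel h4
    have h2 : T = ω ^ (j : ℕ) • S j := by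
      rw [hS, smul_smul, ← mul_pow, mul_inv_cancel₀ hω0, one_pow, one_smul]
    have h3 : T * π j = ω ^ (j : ℕ) • π j := by
      conv_lhs => rw [h2]
      rw [smul_mul_assoc, h1]
    exact DFunLike.congr_fun h3 v
  · intro j k v hv
    have h1 : S j v = (ω⁻¹ ^ (j : ℕ) * ω ^ (k : ℕ)) • v := by
      rw [hS, LinearMap.smul_apply, hv, smul_smul]
    have h2 : ∀ i, (S j ^ i) v = (ω⁻¹ ^ (j : ℕ) * ω ^ (k : ℕ)) ^ i • v := by
      intro i
      induction i with
      | zero => simp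
      | succ i ih =>
        rw [pow_succ', Module.End.mul_apply, ih, map_smul, h1, smul_smul, ← pow_succ]
    have h3 : π j v = ((p : ℂ)⁻¹ * ∑ i ∈ range p, (ω⁻¹ ^ (j : ℕ) * ω ^ (k : ℕ)) ^ i) • v := by
      rw [hπ, LinearMap.smul_apply, LinearMap.sum_apply, Finset.sum_congr rfl fun i _ => h2 i,
        ← sum_smul, smul_smul]
    rw [h3]
    split_ifs with hjk
    · subst hjk
      have h4 : ω⁻¹ ^ (j : ℕ) * ω ^ (j : ℕ) = 1 := by
        rw [← mul_pow, inv_mul_cancel₀ hω0, one_pow]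
      rw [h4]
      simp [hpC]
    · rw [geo, mul_zero, zero_smul]
      · rw [mul_pow, ← pow_mul, ← pow_mul, mul_comm (j : ℕ), mul_comm (k : ℕ), pow_mul, pow_mul,
          inv_pow, hωp, inv_one, one_pow, one_pow, one_mul]
      · intro h
        apply hjk
        have h5 : ω ^ (j : ℕ) = ω ^ (k : ℕ) := by
          rw [inv_pow] at h
          have h6 : ω ^ (j : ℕ) ≠ 0 := pow_ne_zero _ hω0
          field_simp at h
          exact h.symm
        exact Fin.ext (hω.pow_inj j.2 k.2 h5)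
  · intro j A hA
    have h1 : A * S j = S j * A := by
      rw [hS, mul_smul_comm, smul_mul_assoc, hA]
    have h2 : ∀ i, A * S j ^ i = S j ^ i * A := fun i => ((show Commute A (S j) from h1).pow_right i)
    rw [hπ, mul_smul_comm, smul_mul_assoc, mul_sum, sum_mul, Finset.sum_congr rfl fun i _ => h2 i]

end Pool.Agent.Q178.RP
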